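import Pool.Agent.H159R3.Lang.Powers
import Pool.Agent.H159R3.BLV.Main

/-!
Pseudo-Brody hyperbolicity of varieties given by few monomials that are high powers.
-/

set_option autoImplicit false

namespace Pool.Agent.H159R3.GGL

open MvPolynomial Pool.Agent.H159R3.NV Pool.Agent.H159R3.Toric
open scoped Topology

variable {n : ℕ} {ι : Type}

/-- Homogeneous coordinates of the points of the projective variety `X` in `P^n` over the complex
numbers with the equations `F i`. -/
def Pts (F : ι → MvPolynomial (Fin (n + 1)) ℂ) : Set (Fin (n + 1) → ℂ) :=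
  {x | x ≠ 0 ∧ ∀ i, eval x (F i) = 0}

/-- `X` is irreducible: it is not empty and it is not the union of two proper closed subsets. -/
def Irred (F : ι → MvPolynomial (Fin (n + 1)) ℂ) : Prop :=
  (Pts F).Nonempty ∧ ∀ G H : MvPolynomial (Fin (n + 1)) ℂ,
    (∀ x ∈ Pts F, eval x (G * H) = 0) → (∀ x ∈ Pts F, eval x G = 0) ∨ (∀ x ∈ Pts F, eval x H = 0)

/-- `f` is the vector of homogeneous coordinates of an entire curve in `X`, that is, of a
nonconstant holomorphic map from the complex plane to `X`. -/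
def EntireCurve (F : ι → MvPolynomial (Fin (n + 1)) ℂ) (f : ℂ → Fin (n + 1) → ℂ) : Prop :=
  Differentiable ℂ f ∧ (∀ z, f z ∈ Pts F) ∧ ∃ z w, ∀ c : ℂ, f z ≠ c • f w

/-- `X` is pseudo-Brody hyperbolic: some hypersurface that does not contain `X` contains all entire
curves in `X`. -/
def PseudoBrody (F : ι → MvPolynomial (Fin (n + 1)) ℂ) : Prop :=
  ∃ G : MvPolynomial (Fin (n + 1)) ℂ, (∃ d, G.IsHomogeneous d) ∧ (∃ x ∈ Pts F, eval x G ≠ 0) ∧
    ∀ f, EntireCurve F f → ∀ z, eval (f z) G = 0

/-- The action of the one-parameter group `t ↦ diag (t ^ b 0, …, t ^ b n)` preserves `X`. -/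
def Preserves (b : Fin (n + 1) → ℤ) (F : ι → MvPolynomial (Fin (n + 1)) ℂ) : Prop :=
  ∀ x ∈ Pts F, ∀ t : ℂ, t ≠ 0 → (fun j => x j * t ^ b j) ∈ Pts F

/-- The action of the one-parameter group `t ↦ diag (t ^ b 0, …, t ^ b n)` is trivial on `X`. -/
def ActsTrivially (b : Fin (n + 1) → ℤ) (F : ι → MvPolynomial (Fin (n + 1)) ℂ) : Prop :=
  ∀ x ∈ Pts F, ∀ t : ℂ, t ≠ 0 → ∃ c : ℂ, (fun j => x j * t ^ b j) = c • x

/-- The exponents of `F` are divisible by some `N` that is large compared with the number of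
monomials. -/
def PowerSparse (F : MvPolynomial (Fin (n + 1)) ℂ) : Prop :=
  ∃ N : ℕ, 0 < N ∧ (F.support.card - 1) ^ 2 ≤ N ∧ ∀ α ∈ F.support, ∀ j, N ∣ α j

theorem irred_prod {F : ι → MvPolynomial (Fin (n + 1)) ℂ} (hF : Irred F) {κ : Type}
    (s : Finset κ) (g : κ → MvPolynomial (Fin (n + 1)) ℂ)
    (h : ∀ k ∈ s, ∃ x ∈ Pts F, eval x (g k) ≠ 0) : ∃ x ∈ Pts F, eval x (∏ k ∈ s, g k) ≠ 0 := by
  classical
  induction s using Finset.induction_on with
  | empty =>
    obtain ⟨x, hx⟩ := hF.1
    exact ⟨x, hx, by simp⟩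
  | insert a s ha ih =>
    have h1 := ih (fun k hk => h k (Finset.mem_insert_of_mem hk))
    have h2 := h a (Finset.mem_insert_self a s)
    rw [Finset.prod_insert ha]
    by_contra hcon
    push Not at hcon
    rcases hF.2 _ _ hcon with h3 | h3
    · obtain ⟨x, hx, hx2⟩ := h2
      exact hx2 (h3 x hx)
    · obtain ⟨x, hx, hx2⟩ := h1
      exact hx2 (h3 x hx)

/-- partial sums of the terms of `F` -/
noncomputable def sub (F : MvPolynomial (Fin (n + 1)) ℂ) (A : Finset (Fin (n + 1) →₀ ℕ)) :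
    MvPolynomial (Fin (n + 1)) ℂ := ∑ α ∈ A, monomial α (F.coeff α)

theorem eval_sub' (F : MvPolynomial (Fin (n + 1)) ℂ) (A : Finset (Fin (n + 1) →₀ ℕ))
    (x : Fin (n + 1) → ℂ) : eval x (sub F A) = ∑ α ∈ A, F.coeff α * ∏ j, x j ^ α j := by
  unfold sub
  rw [map_sum]
  refine Finset.sum_congr rfl fun α _ => ?_
  rw [eval_monomial, Finsupp.prod_fintype _ _ (fun j => pow_zero _)]

/-- The exceptional hypersurface -/
noncomputable def exc [Fintype ι] (F : ι → MvPolynomial (Fin (n + 1)) ℂ) :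
    MvPolynomial (Fin (n + 1)) ℂ := by
  classical
  exact ∏ i, ∏ A ∈ (F i).support.powerset.filter (fun A => ∃ x ∈ Pts F, eval x (sub (F i) A) ≠ 0),
    sub (F i) A

theorem exc_hom [Fintype ι] (F : ι → MvPolynomial (Fin (n + 1)) ℂ)
    (hF : ∀ i, ∃ d, (F i).IsHomogeneous d) : ∃ d, (exc F).IsHomogeneous d := by
  classical
  choose d hd using hF
  have h1 : ∀ i A, A ⊆ (F i).support → (sub (F i) A).IsHomogeneous (d i) := by
    intro i A hA
    unfold sub
    apply IsHomogeneous.sum
    intro α hα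
    apply isHomogeneous_monomial
    rw [Finsupp.degree_eq_weight_one]
    exact (hd i) (mem_support_iff.mp (hA hα))
  have h2 : ∀ i, ∃ e, (∏ A ∈ (F i).support.powerset.filter
      (fun A => ∃ x ∈ Pts F, eval x (sub (F i) A) ≠ 0), sub (F i) A).IsHomogeneous e := fun i =>
    ⟨_, IsHomogeneous.prod _ _ (fun _ => d i) fun A hA =>
      h1 i A (Finset.mem_powerset.mp (Finset.mem_filter.mp hA).1)⟩
  choose e he using h2
  unfold exc
  exact ⟨_, IsHomogeneous.prod _ _ e fun i _ => he i⟩

theorem exc_ne [Fintype ι] (F : ι → MvPolynomial (Fin (n + 1)) ℂ) (hF : Irred F) :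
    ∃ x ∈ Pts F, eval x (exc F) ≠ 0 := by
  classical
  unfold exc
  apply irred_prod hF
  intro i _
  apply irred_prod hF
  intro A hA
  exact (Finset.mem_filter.mp hA).2

theorem exc_sub [Fintype ι] (F : ι → MvPolynomial (Fin (n + 1)) ℂ) (y : Fin (n + 1) → ℂ)
    (hy : eval y (exc F) ≠ 0) (i : ι) (A : Finset (Fin (n + 1) →₀ ℕ)) (hA : A ⊆ (F i).support)
    (h0 : eval y (sub (F i) A) = 0) : ∀ x ∈ Pts F, eval x (sub (F i) A) = 0 := by
  classical
  by_contra hcon
  push Not at hcon
  apply hy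
  unfold exc
  rw [map_prod]
  apply Finset.prod_eq_zero (Finset.mem_univ i)
  rw [map_prod]
  exact Finset.prod_eq_zero (Finset.mem_filter.mpr ⟨Finset.mem_powerset.mpr hA, hcon⟩) h0

/-- Analytic part: an entire curve yields a one-parameter group. -/
theorem curve (F : ι → MvPolynomial (Fin (n + 1)) ℂ) (hC : ∀ i, PowerSparse (F i))
    (f : ℂ → Fin (n + 1) → ℂ) (hf : EntireCurve F f) (G : MvPolynomial (Fin (n + 1)) ℂ) (z1 : ℂ)
    (hG : eval (f z1) G ≠ 0) :
    ∃ (z0 : ℂ) (b : Fin (n + 1) → ℤ) (j k : Fin (n + 1)), f z0 j ≠ 0 ∧ f z0 k ≠ 0 ∧ b j ≠ b k ∧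
      eval (f z0) G ≠ 0 ∧
      ∀ i (v : ℤ), eval (f z0) (sub (F i)
        ((F i).support.filter (fun α => ∑ j, (α j : ℤ) * b j = v))) = 0 := by
  classical
  obtain ⟨hfd0, hfX, w1, w2, hw12⟩ := hf
  have hfj : ∀ j, Differentiable ℂ (fun z => f z j) := fun j => by
    rw [differentiable_pi] at hfd0
    exact hfd0 j
  have hfd : ∀ j, Differentiable ℂ (deriv (fun z => f z j)) := fun j =>
    ((hfj j).contDiff (n := 2)).differentiable_deriv_two
  have hf0 : ∀ z, f z ≠ 0 := fun z => (hfX z).1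
  -- a pair of non-proportional coordinates
  have hpair : ∃ j k, ∃ z, f z j * deriv (fun z => f z k) z - f z k * deriv (fun z => f z j) z ≠ 0 := by
    by_contra hcon
    push Not at hcon
    obtain ⟨k, hk⟩ := Function.ne_iff.mp (hf0 0)
    have hk' : f 0 k ≠ 0 := hk
    have hc : ∀ j, ∃ c : ℂ, ∀ z, f z j = c * f z k := fun j =>
      Lang.proportional (hfj j) (hfj k) ⟨0, hk'⟩ (fun z => hcon k j z)
    choose c hc using hc
    have hfk : ∀ z, f z k ≠ 0 := by
      intro z h0
      apply hf0 z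
      funext j
      rw [hc j z, h0, mul_zero]
      rfl
    apply hw12 (f w1 k / f w2 k)
    funext j
    rw [Pi.smul_apply, smul_eq_mul, hc j w1, hc j w2]
    have := hfk w2
    field_simp
  obtain ⟨j1, k1, zw, hzw⟩ := hpair
  have hwd : Differentiable ℂ (fun z => f z j1 * deriv (fun z => f z k1) z
      - f z k1 * deriv (fun z => f z j1) z) :=
    ((hfj j1).mul (hfd k1)).sub ((hfj k1).mul (hfd j1))
  have hGd : Differentiable ℂ (fun z => eval (f z) G) := by
    have : (fun z => eval (f z) G) = fun z => ∑ α ∈ G.support, G.coeff α * ∏ j, f z j ^ α j := by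
      funext z
      rw [eval_eq']
    rw [this]
    apply Differentiable.fun_sum
    intro α _
    apply Differentiable.const_mul
    apply Differentiable.fun_finset_prod
    intro j _
    exact (hfj j).pow _
  have hev : ∀ᶠ z in 𝓝[≠] (0 : ℂ), (∀ j, (∃ z, f z j ≠ 0) → f z j ≠ 0) ∧
      f z j1 * deriv (fun z => f z k1) z - f z k1 * deriv (fun z => f z j1) z ≠ 0 ∧
      eval (f z) G ≠ 0 := by
    refine Filter.Eventually.and ?_ (Filter.Eventually.and (ev_ne hwd hzw 0) (ev_ne hGd hG 0))
    rw [Filter.eventually_all]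
    intro j
    by_cases hj : ∃ z, f z j ≠ 0
    · obtain ⟨z, hz⟩ := hj
      filter_upwards [ev_ne (hfj j) hz 0] with w hw _
      exact hw
    · exact Filter.Eventually.of_forall fun w hw => absurd hw hj
  obtain ⟨z0, hz0, hz0w, hz0G⟩ := hev.exists
  have hj1 : f z0 j1 ≠ 0 := by
    apply hz0
    by_contra hcon
    push Not at hcon
    apply hz0w
    have h1 : (fun z => f z j1) = fun _ => 0 := funext hcon
    rw [hcon z0, h1]
    simp
  have hk1 : f z0 k1 ≠ 0 := by
    apply hz0
    by_contra hcon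
    push Not at hcon
    apply hz0w
    have h1 : (fun z => f z k1) = fun _ => 0 := funext hcon
    rw [hcon z0, h1]
    simp
  set u : Fin (n + 1) → ℂ := fun j => deriv (fun z => f z j) z0 / f z0 j with hu
  have hune : ∑ j, (((Pi.single k1 1 - Pi.single j1 1 : Fin (n + 1) → ℤ) j : ℤ) : ℂ) * u j ≠ 0 := by
    have h1 : ∑ j, (((Pi.single k1 1 - Pi.single j1 1 : Fin (n + 1) → ℤ) j : ℤ) : ℂ) * u j
        = u k1 - u j1 := by
      simp only [Pi.sub_apply, Int.cast_sub, sub_mul]
      rw [Finset.sum_sub_distrib]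
      congr 1
      · rw [Finset.sum_eq_single k1]
        · simp
        · intro j _ hj
          simp [hj]
        · simp
      · rw [Finset.sum_eq_single j1]
        · simp
        · intro j _ hj
          simp [hj]
        · simp
    rw [h1]
    intro h0
    apply hz0w
    simp only [hu] at h0
    rw [div_sub_div _ _ hk1 hj1, div_eq_zero_iff] at h0
    rcases h0 with h0 | h0
    · linear_combination h0
    · exact absurd h0 (mul_ne_zero hk1 hj1)
  obtain ⟨b, hb, hbp⟩ := exists_b u _ hune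
  have hbjk : b k1 ≠ b j1 := by
    intro h0
    apply hbp
    simp only [Pi.sub_apply, sub_mul]
    rw [Finset.sum_sub_distrib, Finset.sum_eq_single k1, Finset.sum_eq_single j1]
    · simp [h0]
    · intro j _ hj; simp [hj]
    · simp
    · intro j _ hj; simp [hj]
    · simp
  refine ⟨z0, b, k1, j1, hk1, hj1, hbjk, hz0G, ?_⟩
  intro i v
  obtain ⟨N, hN, hs, hdiv⟩ := hC i
  rw [eval_sub']
  exact toric (fun j z => f z j) hfj ∅ (by simp) z0 hz0 b hb (F i) hN hs
    (fun α hα j _ => hdiv α hα j) (fun z => (hfX z).2 i) v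

theorem two_zpow {a c : ℤ} (h : (2 : ℂ) ^ a = (2 : ℂ) ^ c) : (2 : ℝ) ^ a = (2 : ℝ) ^ c := by
  apply Complex.ofReal_injective
  push_cast
  exact h

/-- Classification of the pseudo-Brody hyperbolic varieties of this kind. -/
theorem main [Finite ι] (F : ι → MvPolynomial (Fin (n + 1)) ℂ)
    (hF : ∀ i, ∃ d, (F i).IsHomogeneous d) (hC : ∀ i, PowerSparse (F i)) (hirr : Irred F) :
    PseudoBrody F ↔ ∀ b : Fin (n + 1) → ℤ, Preserves b F → ActsTrivially b F := by
  classical
  have := Fintype.ofFinite ι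
  constructor
  · rintro ⟨G, -, ⟨x1, hx1, hx1G⟩, hG⟩ b hb
    by_contra hnt
    unfold ActsTrivially at hnt
    push Not at hnt
    obtain ⟨x0, hx0, t0, ht0, hnt⟩ := hnt
    -- coordinates with different weights
    have hjk : ∃ j k, x0 j ≠ 0 ∧ x0 k ≠ 0 ∧ b j ≠ b k := by
      by_contra hcon
      push Not at hcon
      obtain ⟨k, hk⟩ := Function.ne_iff.mp hx0.1
      apply hnt (t0 ^ b k)
      funext j
      rw [Pi.smul_apply, smul_eq_mul]
      by_cases hj : x0 j = 0
      · rw [hj, zero_mul, mul_zero]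
      · rw [hcon j k hj hk, mul_comm]
    obtain ⟨j, k, hj, hk, hbjk⟩ := hjk
    obtain ⟨y, hy, hyG⟩ := irred_prod hirr (Finset.univ : Finset (Fin 3)) ![G, MvPolynomial.X j, MvPolynomial.X k] (by
      intro l _
      fin_cases l
      · exact ⟨x1, hx1, hx1G⟩
      · exact ⟨x0, hx0, by simpa using hj⟩
      · exact ⟨x0, hx0, by simpa using hk⟩)
    rw [map_prod, Fin.prod_univ_three] at hyG
    simp only [Matrix.cons_val_zero, Matrix.cons_val_one, Matrix.cons_val, eval_X] at hyG
    have hyk : y k ≠ 0 := right_ne_zero_of_mul hyG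
    have hyj : y j ≠ 0 := right_ne_zero_of_mul (left_ne_zero_of_mul hyG)
    have hyG' : eval y G ≠ 0 := left_ne_zero_of_mul (left_ne_zero_of_mul hyG)
    apply hyG'
    have h1 := hG (fun z l => y l * Complex.exp z ^ b l) ⟨by
        rw [differentiable_pi]
        intro l
        apply Differentiable.const_mul
        have : (fun z => Complex.exp z ^ b l) = fun z => Complex.exp (b l * z) := by
          funext z
          rw [Complex.exp_int_mul]
        rw [this]
        exact (differentiable_id.const_mul _).cexp,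
      fun z => hb y hy _ (Complex.exp_ne_zero z), by
        by_contra hcon
        push Not at hcon
        obtain ⟨c, hc⟩ := hcon (Real.log 2 : ℝ) 0
        have h2 : ∀ l, y l ≠ 0 → (2 : ℂ) ^ b l = c := by
          intro l hl
          have h3 := congrFun hc l
          simp only [Pi.smul_apply, smul_eq_mul, Complex.exp_zero, one_zpow, mul_one] at h3
          rw [← Complex.ofReal_exp, Real.exp_log (by norm_num)] at h3
          push_cast at h3
          rw [mul_comm] at h3
          exact mul_right_cancel₀ hl h3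
        have h4 := (h2 j hyj).trans (h2 k hyk).symm
        apply hbjk
        have h5 : (2 : ℝ) ^ b j = (2 : ℝ) ^ b k := two_zpow h4
        exact zpow_right_injective₀ (by norm_num) (by norm_num) h5⟩ 0
    simpa using h1
  · intro hno
    refine ⟨exc F, exc_hom F hF, exc_ne F hirr, ?_⟩
    intro f hf z1
    by_contra hz1
    obtain ⟨z0, b, j, k, hj, hk, hbjk, hG, hs⟩ := curve F hC f hf (exc F) z1 hz1
    have hX : ∀ i (v : ℤ), ∀ x ∈ Pts F, eval x (sub (F i)
        ((F i).support.filter (fun α => ∑ j, (α j : ℤ) * b j = v))) = 0 := fun i v =>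
      exc_sub F (f z0) hG i _ (Finset.filter_subset _ _) (hs i v)
    have hpres : Preserves b F := by
      intro x hx t ht
      refine ⟨?_, ?_⟩
      · obtain ⟨l, hl⟩ := Function.ne_iff.mp hx.1
        exact Function.ne_iff.mpr ⟨l, mul_ne_zero hl (zpow_ne_zero _ ht)⟩
      · intro i
        have h1 := BLV.eval_laurent_zero (RingHom.id ℂ) (F i) x b t ht (fun v => by
          rw [← hX i v x hx, eval_sub']
          rfl)
        exact h1
    obtain ⟨c, hc⟩ := hno b hpres (f z0) (hf.2.1 z0) 2 two_ne_zero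
    have h2 : ∀ l, f z0 l ≠ 0 → (2 : ℂ) ^ b l = c := by
      intro l hl
      have h3 := congrFun hc l
      simp only [Pi.smul_apply, smul_eq_mul] at h3
      rw [mul_comm] at h3
      exact mul_right_cancel₀ hl h3
    have h4 := (h2 j hj).trans (h2 k hk).symm
    apply hbjk
    have h5 : (2 : ℝ) ^ b j = (2 : ℝ) ^ b k := two_zpow h4
    exact zpow_right_injective₀ (by norm_num) (by norm_num) h5

end Pool.Agent.H159R3.GGL
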