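import Pool.Agent.H159R3.GGL.Special
import Pool.Agent.H159R3.Torus.Lines

/-!
Density of the special sets, and grouplessness.
-/

set_option autoImplicit false

namespace Pool.Agent.H159R3.GGL

open MvPolynomial Pool.Agent.H159R3.NV Pool.Agent.H159R3.Toric Pool.Agent.H159R3.Exp
open scoped Topology

variable {n : ℕ} {ι : Type}

theorem spH_ne_iff (F : ι → MvPolynomial (Fin (n + 1)) ℂ) : SpH F ≠ Pts F ↔ PseudoBrody F := by
  constructor
  · intro h
    have h1 : ∃ x ∈ Pts F, x ∉ SpH F := by
      by_contra hcon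
      push Not at hcon
      exact h (Set.Subset.antisymm (fun x hx => hx.1) hcon)
    obtain ⟨x, hx, hx2⟩ := h1
    unfold SpH at hx2
    simp only [Set.mem_setOf_eq, not_and] at hx2
    have h2 := hx2 hx
    push Not at h2
    obtain ⟨G, hG, hGf, hGx⟩ := h2
    exact ⟨G, hG, ⟨x, hx, hGx⟩, hGf⟩
  · rintro ⟨G, hG, ⟨x, hx, hGx⟩, hGf⟩ h
    rw [← h] at hx
    exact hGx (hx.2 G hG hGf)

/-- The images of the nonconstant morphisms from the multiplicative group are dense if and only if
some one-parameter group of diagonal matrices acts nontrivially. -/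
theorem spT_iff [Finite ι] (F : ι → MvPolynomial (Fin (n + 1)) ℂ)
    (hF : ∀ i, ∃ d, (F i).IsHomogeneous d) (hC : ∀ i, PowerSparse (F i)) (hirr : Irred F) :
    SpH F = SpT F ∧
    (SpT F ≠ Pts F ↔ ∀ b : Fin (n + 1) → ℤ, Preserves b F → ActsTrivially b F) := by
  refine ⟨special F hC, ?_⟩
  rw [← special F hC, spH_ne_iff, main F hF hC hirr]

/-- A variety given by few monomials that are high powers, or by forms of small Waring rank, that
receives no nonconstant morphism from the multiplicative group is Brody hyperbolic. -/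
theorem groupless (F : ι → MvPolynomial (Fin (n + 1)) ℂ)
    (hF : ∀ i, ∃ d, 0 < d ∧ (F i).IsHomogeneous d)
    (hC : (∀ i, PowerSparse (F i)) ∨
      ∀ i, ∀ d, (F i).IsHomogeneous d → Lang.SmallWaring (RingHom.id ℂ) (F i) d) :
    (∀ v, ¬ TorusCurve F v) ↔ ∀ f, ¬ EntireCurve F f := by
  constructor
  · intro h
    rw [Torus.hyperbolic_iff F hF hC]
    rintro Q ⟨hQ, s, t, hst⟩
    -- a translate of the rational curve whose two points avoid the origin
    obtain ⟨a, ha⟩ : ∃ a : ℂ, s + a ≠ 0 ∧ t + a ≠ 0 := by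
      obtain ⟨a, ha⟩ := (Set.Finite.infinite_compl (Set.toFinite {-s, -t} : ({-s, -t} : Set ℂ).Finite)).nonempty
      simp only [Set.mem_compl_iff, Set.mem_insert_iff, Set.mem_singleton_iff, not_or] at ha
      exact ⟨a, fun h0 => ha.1 (by linear_combination h0), fun h0 => ha.2 (by linear_combination h0)⟩
    refine h (fun x j => (Q j).eval (x - a)) ⟨fun j => ?_, fun x _ => hQ (x - a),
      s + a, t + a, ha.1, ha.2, ?_⟩
    · have := Laur.poly ((Q j).comp (Polynomial.X - Polynomial.C a))
      simpa [Polynomial.eval_comp] using this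
    · simpa using hst
  · intro h v hv
    exact h _ hv.entire

end Pool.Agent.H159R3.GGL
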