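import Pool.Agent.H159R3.GGL.Log
import Pool.Agent.H159R3.Exp.Laur

/-!
The special sets of quasi-projective varieties given, up to units, by few monomials that are high
powers.
-/

set_option autoImplicit false

namespace Pool.Agent.H159R3.GGLLog

open MvPolynomial Pool.Agent.H159R3.NV Pool.Agent.H159R3.Toric Pool.Agent.H159R3.Exp
open scoped Topology

variable {n : ℕ} {ι : Type} (U : Set (Fin (n + 1)))

/-- `v` is the vector of homogeneous coordinates of a nonconstant morphism from the multiplicative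
group to `X`. -/
def TorusCurve (F : ι → MvPolynomial (Fin (n + 1)) ℂ) (v : ℂ → Fin (n + 1) → ℂ) : Prop :=
  (∀ j, Laur (fun t => v t j)) ∧ (∀ t, t ≠ 0 → v t ∈ Pts U F) ∧
    ∃ s t, s ≠ 0 ∧ t ≠ 0 ∧ ∀ c : ℂ, v s ≠ c • v t

/-- The Zariski closure in `X` of the union of the images of all entire curves in `X`. -/
def SpH (F : ι → MvPolynomial (Fin (n + 1)) ℂ) : Set (Fin (n + 1) → ℂ) :=
  {x | x ∈ Pts U F ∧ ∀ G : MvPolynomial (Fin (n + 1)) ℂ, (∃ d, G.IsHomogeneous d) →
    (∀ f, EntireCurve U F f → ∀ z, eval (f z) G = 0) → eval x G = 0}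

/-- The Zariski closure in `X` of the union of the images of all nonconstant morphisms from the
multiplicative group to `X`. -/
def SpT (F : ι → MvPolynomial (Fin (n + 1)) ℂ) : Set (Fin (n + 1) → ℂ) :=
  {x | x ∈ Pts U F ∧ ∀ G : MvPolynomial (Fin (n + 1)) ℂ, (∃ d, G.IsHomogeneous d) →
    (∀ v, TorusCurve U F v → ∀ t, t ≠ 0 → eval (v t) G = 0) → eval x G = 0}

theorem laur_exp {φ : ℂ → ℂ} (hφ : Laur φ) : Differentiable ℂ (fun z => φ (Complex.exp z)) := by
  obtain ⟨M, Q, h⟩ := hφ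
  have h1 : (fun z => φ (Complex.exp z)) = fun z => Q.eval (Complex.exp z) * Complex.exp (-(M * z)) := by
    funext z
    rw [← h _ (Complex.exp_ne_zero z), mul_assoc, ← Complex.exp_nat_mul, ← Complex.exp_add]
    simp
  rw [h1]
  exact (Q.differentiable.comp Complex.differentiable_exp).mul
    (differentiable_id.const_mul _).neg.cexp

theorem TorusCurve.entire {U : Set (Fin (n + 1))} {F : ι → MvPolynomial (Fin (n + 1)) ℂ} {v : ℂ → Fin (n + 1) → ℂ}
    (hv : TorusCurve U F v) : EntireCurve U F (fun z => v (Complex.exp z)) := by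
  obtain ⟨hv1, hv2, s, t, hs, ht, hst⟩ := hv
  refine ⟨?_, fun z => hv2 _ (Complex.exp_ne_zero z), Complex.log s, Complex.log t, ?_⟩
  · rw [differentiable_pi]
    exact fun j => laur_exp (hv1 j)
  · simp only [Complex.exp_log hs, Complex.exp_log ht]
    exact hst

theorem torusCurve_of (F : ι → MvPolynomial (Fin (n + 1)) ℂ) (hC : ∀ i, PowerSparse U (F i))
    (f : ℂ → Fin (n + 1) → ℂ) (hf : EntireCurve U F f) (G : MvPolynomial (Fin (n + 1)) ℂ) (z1 : ℂ)
    (hG : eval (f z1) G ≠ 0) : ∃ v, TorusCurve U F v ∧ eval (v 1) G ≠ 0 := by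
  obtain ⟨z0, b, j, k, hj, hk, hbjk, hG0, hs⟩ := curve U F hC f hf G z1 hG
  have hX : f z0 ∈ Pts U F := hf.2.1 z0
  refine ⟨fun t j => f z0 j * t ^ b j, ⟨fun j => (Laur.const _).mul (Laur.zpow _), ?_, ?_⟩, ?_⟩
  · intro t ht
    refine ⟨?_, ?_, ?_⟩
    · obtain ⟨l, hl⟩ := Function.ne_iff.mp hX.1
      exact Function.ne_iff.mpr ⟨l, mul_ne_zero hl (zpow_ne_zero _ ht)⟩
    · exact fun j hj => mul_ne_zero (hX.2.1 j hj) (zpow_ne_zero _ ht)
    · intro i
      have h1 := BLV.eval_laurent_zero (RingHom.id ℂ) (F i) (f z0) b t ht (fun v => by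
        rw [← hs i v, eval_sub']
        rfl)
      exact h1
  · refine ⟨2, 1, two_ne_zero, one_ne_zero, fun c hc => ?_⟩
    have h2 : ∀ l, f z0 l ≠ 0 → (2 : ℂ) ^ b l = c := by
      intro l hl
      have h3 := congrFun hc l
      simp only [Pi.smul_apply, smul_eq_mul, one_zpow, mul_one] at h3
      rw [mul_comm] at h3
      exact mul_right_cancel₀ hl h3
    have h4 := (h2 j hj).trans (h2 k hk).symm
    apply hbjk
    exact zpow_right_injective₀ (by norm_num) (by norm_num) (two_zpow h4)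
  · simpa using hG0

theorem special (F : ι → MvPolynomial (Fin (n + 1)) ℂ) (hC : ∀ i, PowerSparse U (F i)) :
    SpH U F = SpT U F := by
  ext x
  constructor
  · rintro ⟨hx, h⟩
    refine ⟨hx, fun G hG hv => h G hG fun f hf z => ?_⟩
    by_contra hz
    obtain ⟨v, hv', hv1⟩ := torusCurve_of U F hC f hf G z hz
    exact hv1 (hv v hv' 1 one_ne_zero)
  · rintro ⟨hx, h⟩
    refine ⟨hx, fun G hG hf => h G hG fun v hv t ht => ?_⟩
    have := hf _ hv.entire (Complex.log t)
    simpa only [Complex.exp_log ht] using this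

end Pool.Agent.H159R3.GGLLog
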